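import Pool.Agent.H839R3.Nas.Stmts2

/-!
# Definability and supports in the symmetric extension
-/

set_option autoImplicit false

namespace Pool.Agent.H745R3.NasDfn

open Pool.Agent.H839R3.Nas
open Nm GenD FirstOrder FirstOrder.Language
open Pool.Agent.Helper672.Plain (LSet Mem Sym IsPair IsOrdPair)
open Pool.Agent.H310Cards

section core

variable {P : Type} [Preorder P] {S : Sys P V}

/-- Abstract part: a forced definition gives a name with the support. -/
theorem core {e : Finset V} {ψ : Fm} {i0 : ℕ} {Y : ℕ → S.H} {r : P}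
    (hY : ∀ n, n ≠ i0 → S.Sp e (Y n).1)
    (h1 : forces ψ Y r)
    (h3 : ∀ x : S.H, ∀ q, q ≤ r → forces ψ (Function.update Y i0 x) q →
      feq x.1 (Y i0).1 q) :
    ∃ y : S.H, S.Sp e y.1 ∧ feq (Y i0).1 y.1 r := by
  set z : S.H := Y i0 with hz
  have h0 : ∀ σ, σ ∈ S.Fx e → σ ∈ S.Fx ∅ := fun σ hσ => Sys.mem0 S hσ
  let I : Type := {a : P × {σ : P ≃o P // σ ∈ S.Fx e} × z.1.I //
    a.1 ≤ a.2.1.1 (z.1.B a.2.2) ∧
      forces ψ (Function.update Y i0 (z.ac a.2.1.1 (h0 _ a.2.1.2))) a.1}
  let nm : Nm P := ⟨I, fun a => act a.1.2.1.1 (z.1.A a.1.2.2), fun a => a.1.1⟩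
  have hsp : S.Sp e nm := by
    refine sp_of ?_
    rintro τ hτ ⟨⟨s, ⟨σ, hσ⟩, k⟩, h4, h5⟩ q hq q' hq'
    have h6 : forces ψ (Function.update Y i0 (z.ac (τ * σ) (h0 _ (S.mul _ _ _ hτ hσ)))) (τ s) := by
      refine forces_act (h0 τ hτ) (fun n => ?_) h5
      by_cases hn : n = i0
      · subst hn
        simp only [Function.update_self]
        change feq (act τ (act σ z.1)) (act (τ * σ) z.1) _
        rw [act_mul]
        exact feq_refl _ _
      · simp only [Function.update_of_ne hn]
        exact hY n hn τ hτ _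
    have hqs : q' ≤ τ s := hq'.trans hq
    have h7 : q' ≤ (τ * σ) (z.1.B k) := hqs.trans (τ.monotone h4)
    refine ⟨q', le_rfl, ⟨(q', ⟨τ * σ, S.mul _ _ _ hτ hσ⟩, k), h7, forces_mono h6 hqs⟩, le_rfl, ?_⟩
    change feq (act τ (act σ (z.1.A k))) (act (τ * σ) (z.1.A k)) q'
    rw [act_mul]
    exact feq_refl _ _
  have hHS : S.HS nm := (S.HS_iff _).2 ⟨⟨e, hsp⟩, fun i =>
    Sys.HS.act S (((S.HS_iff _).1 z.2).2 i.1.2.2) (h0 _ i.1.2.1.2)⟩
  refine ⟨⟨nm, hHS⟩, hsp, ?_⟩
  refine feq_of_mem ?_ ?_
  · intro k q hq hk q' hq'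
    have h4 : forces ψ (Function.update Y i0 (z.ac 1 (h0 _ (S.one e)))) q' := by
      refine forces_congr (fun n => ?_) (forces_mono h1 (hq'.trans hq))
      by_cases hn : n = i0
      · subst hn
        simp only [Function.update_self]
        change feq z.1 (act 1 z.1) _
        rw [act_one]
        exact feq_refl _ _
      · simp only [Function.update_of_ne hn]
        exact feq_refl _ _
    refine ⟨q', le_rfl, ⟨(q', ⟨1, S.one e⟩, k), hq'.trans hk, h4⟩, le_rfl, ?_⟩
    change feq (z.1.A k) (act 1 (z.1.A k)) q'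
    rw [act_one]
    exact feq_refl _ _
  · rintro ⟨⟨s, ⟨σ, hσ⟩, k⟩, h4, h5⟩ q hq hs
    have hs' : q ≤ s := hs
    have h6 := h3 _ q hq (forces_mono h5 hs')
    have h7 : fmem (act σ (z.1.A k)) (act σ z.1) q :=
      fmem_mono (fmem_act' σ (fmem_self z.1 k le_rfl)) (hs'.trans h4)
    exact fmem_congr_right h6 h7

end core

theorem taskDfn : TaskDfn := by
  classical
  intro P _ _ S O J op pr g e ι p hp v z hv h0 hu
  obtain ⟨φ, hφ⟩ := (Set.empty_definable_iff).1 hp
  have hφ' : ∀ u, p u ↔ φ.Realize u := fun u => by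
    have h1 : u ∈ {v | p v} ↔ u ∈ Set.ofPred φ.Realize := by rw [hφ]
    exact h1
  have hc : _root_.Countable (g.N ⊕ Unit) := by
    have := g.countable_N
    infer_instance
  obtain ⟨enc, henc⟩ := hc.exists_injective_nat
  let em : g.N := g.vl _ g.emp
  let V0 : g.N → g.N := fun a => if supN g e a then a else em
  let ψ : Fm := conv enc (φ.relabel (Sum.map v id))
  -- names
  have hdata : ∀ a : g.N, ∃ (w y : S.H) (hw : w ∈ g.T), g.vl w hw = V0 a ∧ S.Sp e y.1 ∧
      ∃ q, q ∈ g.G ∧ feq w.1 y.1 q := by
    intro a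
    by_cases hg : supN g e a
    · obtain ⟨x, hx, h3⟩ := g.exists_vl a
      have h2 := hg
      rw [← h3, supN_iff] at h2
      obtain ⟨y, h4, q, hq, h5⟩ := h2
      exact ⟨x, y, hx, by simp only [V0, if_pos hg, h3], h4, q, hq, h5⟩
    · obtain ⟨q, hq⟩ := g.ne
      refine ⟨S.emp, S.emp, g.emp, ?_, Sys.Sp.mono S emp_sp (Finset.empty_subset e), q, hq,
        feq_refl _ _⟩
      simp only [V0, if_neg hg]
      rfl
  choose dw dy hdw hd1 hd2 hd3 using hdata
  obtain ⟨zn, hzn, hz⟩ := g.exists_vl z
  let i0 : ℕ := 2 * enc (Sum.inr ())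
  let m : ℕ := 2 * (ψ.bd + i0) + 1
  let dc : ℕ → g.N ⊕ Unit := fun n => if hn : ∃ c, n = 2 * enc c then hn.choose else Sum.inl em
  have hdc : ∀ c, dc (2 * enc c) = c := by
    intro c
    have hn : ∃ c', 2 * enc c = 2 * enc c' := ⟨c, rfl⟩
    simp only [dc, dif_pos hn]
    have h1 := hn.choose_spec
    exact (henc (by omega)).symm
  have hdi : ∀ n, n ≠ i0 → ∃ a, dc n = Sum.inl a := by
    intro n hn
    rcases h : dc n with a | u
    · exact ⟨a, rfl⟩
    · exfalso
      by_cases hn' : ∃ c, n = 2 * enc c
      · obtain ⟨c, rfl⟩ := hn'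
        rw [hdc] at h
        subst h
        exact hn rfl
      · simp only [dc, dif_neg hn'] at h
        cases h
  have hmi : m ≠ i0 := by
    simp only [m]; omega
  have him : i0 < m := by
    simp only [m]; omega
  have hmb : ψ.bd ≤ m := by
    simp only [m]; omega
  -- assignments in the model
  let A : ℕ → g.N := fun n => Sum.elim V0 (fun _ => z) (dc n)
  have hAc : ∀ c, A (2 * enc c) = Sum.elim V0 (fun _ => z) c := fun c => by
    simp only [A, hdc]
  have hψ : ∀ (w : ℕ → g.N) (z' : g.N), (∀ a, w (2 * enc (Sum.inl a)) = V0 a) →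
      w (2 * enc (Sum.inr ())) = z' → (p (Sum.elim v fun _ => z') ↔ Sat ψ w) := by
    intro w z' hw1 hw2
    have h1 := conv_spec enc (φ.relabel (Sum.map v id)) (Sum.elim V0 (fun _ : Unit => z')) default w
      (fun c => by
        rcases c with a | u
        · exact hw1 a
        · exact hw2) (fun i => i.elim0)
    have h2 : (Sum.elim V0 (fun _ : Unit => z')) ∘ (Sum.map v id) =
        (Sum.elim v fun _ => z') := by
      funext c
      rcases c with i | u
      · simp only [Function.comp, Sum.map_inl, Sum.elim_inl, V0]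
        rw [if_pos (hv i)]
      · rfl
    rw [hφ']
    refine Iff.trans ?_ h1
    rw [← h2]
    exact Formula.realize_relabel.symm
  have hSat : Sat ψ A := (hψ A z (fun a => hAc _) (hAc _)).1 h0
  have hU : Sat (.all i0 (.imp ψ (.eq i0 m))) (Function.update A m z) := by
    intro x hx
    have h1 := (hψ _ x (fun a => ?_) ?_).2 hx
    · have h2 := hu x h1
      change Function.update (Function.update A m z) i0 x i0 =
        Function.update (Function.update A m z) i0 x m
      rw [Function.update_self, Function.update_of_ne hmi, Function.update_self]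
      exact h2
    · have h2 : 2 * enc (Sum.inl a) ≠ i0 := by
        intro h
        have h3 : enc (Sum.inl a) = enc (Sum.inr ()) := by
          simp only [i0] at h; omega
        have h4 := henc h3
        cases h4
      have h3 : 2 * enc (Sum.inl a) ≠ m := by
        simp only [m]; omega
      rw [Function.update_of_ne h2, Function.update_of_ne h3]
      exact hAc _
    · exact Function.update_self _ _ _
  -- names for the assignments
  let W : ℕ → S.H := fun n => Sum.elim dw (fun _ => zn) (dc n)
  let Y : ℕ → S.H := fun n => Sum.elim dy (fun _ => zn) (dc n)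
  have hWv : ∀ c : g.N ⊕ Unit, ∃ hc : Sum.elim dw (fun _ => zn) c ∈ g.T,
      g.vl (Sum.elim dw (fun _ => zn) c) hc = Sum.elim V0 (fun _ => z) c := by
    intro c
    rcases c with a | u
    · exact ⟨hdw a, hd1 a⟩
    · exact ⟨hzn, hz⟩
  have hWT : ∀ n, W n ∈ g.T := fun n => (hWv (dc n)).1
  have hWe : ∀ n, g.vl (W n) (hWT n) = A n := fun n => (hWv (dc n)).2
  have hWT' : ∀ n, Function.update W m zn n ∈ g.T := by
    intro n
    by_cases hn : n = m
    · rw [hn, Function.update_self]; exact hzn
    · rw [Function.update_of_ne hn]; exact hWT n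
  have hWe' : (fun n => g.vl (Function.update W m zn n) (hWT' n)) = Function.update A m z := by
    funext n
    by_cases hn : n = m
    · subst hn
      simp only [Function.update_self]
      exact hz
    · simp only [Function.update_of_ne hn]
      exact hWe n
  obtain ⟨p1, hp1, h1⟩ : ∃ p, p ∈ g.G ∧ forces ψ W p := by
    refine (g.truth hWT).1 ?_
    have h2 : (fun k => g.vl (W k) (hWT k)) = A := funext hWe
    rw [h2]
    exact hSat
  obtain ⟨p2, hp2, h2⟩ : ∃ p, p ∈ g.G ∧
      forces (.all i0 (.imp ψ (.eq i0 m))) (Function.update W m zn) p := by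
    refine (g.truth hWT').1 ?_
    rw [hWe']
    exact hU
  obtain ⟨p3, hp3, h3⟩ := fin_meet g (Φ := fun n q => feq (W n).1 (Y n).1 q)
    (fun n p q h hq => feq_mono h hq) (fun n => by
      change ∃ p, p ∈ g.G ∧ feq (Sum.elim dw (fun _ => zn) (dc n)).1
        (Sum.elim dy (fun _ => zn) (dc n)).1 p
      rcases dc n with a | u
      · exact hd3 a
      · obtain ⟨q, hq⟩ := g.ne
        exact ⟨q, hq, feq_refl _ _⟩) m
  obtain ⟨r1, hr1, h4, h5⟩ := g.dir p1 p2 hp1 hp2
  obtain ⟨r, hr, h6, h7⟩ := g.dir r1 p3 hr1 hp3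
  have hWi : W i0 = zn := by
    change Sum.elim dw (fun _ => zn) (dc i0) = zn
    rw [hdc]; rfl
  have hYi : Y i0 = zn := by
    change Sum.elim dy (fun _ => zn) (dc i0) = zn
    rw [hdc]; rfl
  -- comparison of assignments
  have hcmp : ∀ (x : S.H) (q : P), q ≤ r →
      (forces ψ (Function.update W i0 x) q ↔ forces ψ (Function.update Y i0 x) q) := by
    intro x q hq
    let T1 : ℕ → S.H := fun n => if n < m then Function.update W i0 x n else S.emp
    let T2 : ℕ → S.H := fun n => if n < m then Function.update Y i0 x n else S.emp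
    have e1 : forces ψ (Function.update W i0 x) q ↔ forces ψ T1 q :=
      forces_bd fun n hn => by
        simp only [T1, if_pos (lt_of_lt_of_le hn hmb)]
    have e2 : forces ψ (Function.update Y i0 x) q ↔ forces ψ T2 q :=
      forces_bd fun n hn => by
        simp only [T2, if_pos (lt_of_lt_of_le hn hmb)]
    have e3 : ∀ n, feq (T1 n).1 (T2 n).1 q := by
      intro n
      by_cases hn : n < m
      · simp only [T1, T2, if_pos hn]
        by_cases hni : n = i0
        · subst hni
          simp only [Function.update_self]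
          exact feq_refl _ _
        · simp only [Function.update_of_ne hni]
          exact feq_mono (h3 n hn) (hq.trans h7)
      · simp only [T1, T2, if_neg hn]
        exact feq_refl _ _
    rw [e1, e2]
    exact ⟨forces_congr e3, forces_congr fun n => feq_symm (e3 n)⟩
  have hfY : forces ψ Y r := by
    have h8 : forces ψ (Function.update W i0 (W i0)) r := by
      rw [Function.update_eq_self]
      exact forces_mono h1 (h6.trans h4)
    rw [hWi, hcmp zn r le_rfl, ← hYi, Function.update_eq_self] at h8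
    exact h8
  have hY : ∀ n, n ≠ i0 → S.Sp e (Y n).1 := by
    intro n hn
    obtain ⟨a, ha⟩ := hdi n hn
    change S.Sp e (Sum.elim dy (fun _ => zn) (dc n)).1
    rw [ha]
    exact hd2 a
  have hfU : ∀ x : S.H, ∀ q, q ≤ r → forces ψ (Function.update Y i0 x) q →
      feq x.1 (Y i0).1 q := by
    intro x q hq h8
    have h9 : forces ψ (Function.update (Function.update W m zn) i0 x) q := by
      refine (forces_bd fun n hn => ?_).1 ((hcmp x q hq).2 h8)
      have hnm : n ≠ m := by omega
      by_cases hni : n = i0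
      · rw [hni, Function.update_self, Function.update_self]
      · rw [Function.update_of_ne hni, Function.update_of_ne hni, Function.update_of_ne hnm]
    have h10 := h2 x q (hq.trans (h6.trans h5)) h9
    have h11 : feq (Function.update (Function.update W m zn) i0 x i0).1
      (Function.update (Function.update W m zn) i0 x m).1 q := h10
    rw [Function.update_self, Function.update_of_ne hmi, Function.update_self] at h11
    rw [hYi]
    exact h11
  obtain ⟨y, hy1, hy2⟩ := core hY hfY hfU
  rw [← hz]
  refine (supN_iff g).2 ⟨y, hy1, r, hr, ?_⟩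
  rw [← hYi]
  exact hy2

end Pool.Agent.H745R3.NasDfn
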